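import Pool.Agent.K6.H89.RS.Step

/-!
# Basic commutators can be eliminated
-/

set_option autoImplicit false

namespace Pool.Agent.K6.H89

open Br

namespace Br

/-- the weight -/
def wt {Z : Type} : Br Z → ℕ
  | gen _ => 1
  | com a b => wt a + wt b

theorem wt_pos {Z : Type} (a : Br Z) : 0 < wt a := by
  induction a with
  | gen z => exact Nat.one_pos
  | com a b iha ihb => simp only [wt]; omega

end Br

/-- strict total orders on all expressions with `b < [a, b]` -/
structure Ord {Z : Type} (lt : Br Z → Br Z → Prop) : Prop where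
  irrefl : ∀ a, ¬ lt a a
  trans : ∀ a b c, lt a b → lt b c → lt a c
  total : ∀ a b, a ≠ b → lt a b ∨ lt b a
  right : ∀ a b, lt b (com a b)

/-- the right factor condition -/
def rc {Z : Type} (lt : Br Z → Br Z → Prop) (b : Br Z) : Br Z → Prop
  | gen _ => True
  | com _ t => ¬ lt b t

/-- basic expressions -/
def bas {Z : Type} (lt : Br Z → Br Z → Prop) : Br Z → Prop
  | gen _ => True
  | com a b => bas lt a ∧ bas lt b ∧ lt b a ∧ rc lt b a

section

variable {Z : Type}

theorem gen_ne_com {z : Z} {a b : Br Z} (h : gen z = com a b) : False := by cases h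

theorem com_ne_gen {z : Z} {a b : Br Z} (h : com a b = gen z) : False := by cases h

theorem sub_ne (x : Z) (a : Br ({z : Z // z ≠ x} × ℕ)) : sub x a ≠ gen x := by
  cases a with
  | gen p =>
    obtain ⟨w, k⟩ := p
    cases k with
    | zero =>
      intro h
      exact w.2 (Br.gen.inj h)
    | succ k =>
      intro h
      exact com_ne_gen h
  | com a b =>
    intro h
    exact com_ne_gen h

theorem yy_inj (x : Z) {w v : Z} {k l : ℕ} (h : yy x w k = yy x v l) : w = v ∧ k = l := by
  induction k generalizing l with
  | zero =>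
    cases l with
    | zero => exact ⟨Br.gen.inj h, rfl⟩
    | succ l => exact (gen_ne_com h).elim
  | succ k ih =>
    cases l with
    | zero => exact (com_ne_gen h).elim
    | succ l =>
      obtain ⟨h1, h2⟩ := ih (Br.com.inj h).1
      exact ⟨h1, by rw [h2]⟩

theorem sub_inj (x : Z) : ∀ a b : Br ({z : Z // z ≠ x} × ℕ), sub x a = sub x b → a = b := by
  intro a
  induction a with
  | gen p =>
    intro b h
    cases b with
    | gen q =>
      obtain ⟨h1, h2⟩ := yy_inj x h
      rw [Prod.ext (Subtype.ext h1) h2]
    | com b₁ b₂ =>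
      exfalso
      obtain ⟨w, k⟩ := p
      cases k with
      | zero => exact gen_ne_com h
      | succ k => exact sub_ne x b₂ (Br.com.inj h).2.symm
  | com a₁ a₂ ih₁ ih₂ =>
    intro b h
    cases b with
    | gen q =>
      exfalso
      obtain ⟨w, k⟩ := q
      cases k with
      | zero => exact com_ne_gen h
      | succ k => exact sub_ne x a₂ (Br.com.inj h).2
    | com b₁ b₂ =>
      have h1 := Br.com.inj h
      rw [ih₁ _ h1.1, ih₂ _ h1.2]

theorem exists_min {lt : Br Z → Br Z → Prop} (h : Ord lt) (c : Br Z) :
    ∃ x, occ x c ∧ ∀ z, occ z c → ¬ lt (gen z) (gen x) := by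
  classical
  induction c with
  | gen z =>
    refine ⟨z, rfl, ?_⟩
    intro w hw
    have : z = w := hw
    rw [this]
    exact h.irrefl _
  | com a b iha ihb =>
    obtain ⟨x, hx, hx2⟩ := iha
    obtain ⟨v, hv, hv2⟩ := ihb
    by_cases hxv : lt (gen v) (gen x)
    · refine ⟨v, Or.inr hv, ?_⟩
      rintro z (hz | hz) hlt
      · exact hx2 z hz (h.trans _ _ _ hlt hxv)
      · exact hv2 z hz hlt
    · refine ⟨x, Or.inl hx, ?_⟩
      rintro z (hz | hz) hlt
      · exact hx2 z hz hlt
      · by_cases hzv : z = v
        · exact hxv (hzv ▸ hlt)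
        · rcases h.total (gen z) (gen v) (fun e => hzv (Br.gen.inj e)) with h1 | h1
          · exact hv2 z hz h1
          · exact hxv (h.trans _ _ _ h1 hlt)

theorem min_lt {lt : Br Z → Br Z → Prop} (h : Ord lt) (x : Z) (c : Br Z)
    (hc : ∀ z, occ z c → ¬ lt (gen z) (gen x)) (hx : c ≠ gen x) : lt (gen x) c := by
  classical
  induction c with
  | gen z =>
    rcases h.total _ _ hx with h1 | h1
    · exact absurd h1 (hc z rfl)
    · exact h1
  | com a b _ ihb =>
    by_cases hb : b = gen x
    · rw [← hb]
      exact h.right a b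
    · exact h.trans _ _ _ (ihb (fun z hz => hc z (Or.inr hz)) hb) (h.right a b)

theorem key {lt : Br Z → Br Z → Prop} (h : Ord lt) (x : Z) (u : Br Z)
    (hu : ∀ z, occ z u → ¬ lt (gen z) (gen x)) (hb : bas lt u) (hx : u ≠ gen x) :
    ∃ v : Br ({z : Z // z ≠ x} × ℕ), sub x v = u ∧ bas (fun a b => lt (sub x a) (sub x b)) v ∧
      wt v ≤ wt u ∧ (occ x u → wt v < wt u) := by
  classical
  induction u with
  | gen z =>
    have hz : z ≠ x := fun e => hx (by rw [e])
    exact ⟨gen (⟨z, hz⟩, 0), rfl, trivial, le_rfl, fun ho => absurd ho hz⟩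
  | com a b iha ihb =>
    obtain ⟨ha1, hb1, hlt, hrc⟩ := hb
    have hua : ∀ z, occ z a → ¬ lt (gen z) (gen x) := fun z hz => hu z (Or.inl hz)
    have hub : ∀ z, occ z b → ¬ lt (gen z) (gen x) := fun z hz => hu z (Or.inr hz)
    by_cases hbx : b = gen x
    · subst hbx
      have hax : a ≠ gen x := by
        rintro rfl
        exact h.irrefl _ hlt
      obtain ⟨v, hv1, hv2, hv3, hv4⟩ := iha hua ha1 hax
      cases v with
      | gen p =>
        refine ⟨gen (p.1, p.2 + 1), ?_, trivial, ?_, ?_⟩
        · show com (yy x p.1 p.2) (gen x) = _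
          congr 1
        · simp only [wt]
          omega
        · intro _
          simp only [wt]
          have := wt_pos a
          omega
      | com v₁ v₂ =>
        exfalso
        rw [← hv1] at hrc
        have h1 : ¬ lt (gen x) (sub x v₂) := hrc
        refine h1 (min_lt h x _ ?_ (sub_ne x v₂))
        intro z hz
        refine hua z ?_
        rw [← hv1]
        exact Or.inr hz
    · have hax : a ≠ gen x := by
        rintro rfl
        exact h.irrefl _ (h.trans _ _ _ hlt (min_lt h x b hub hbx))
      obtain ⟨v, hv1, hv2, hv3, hv4⟩ := iha hua ha1 hax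
      obtain ⟨w, hw1, hw2, hw3, hw4⟩ := ihb hub hb1 hbx
      refine ⟨com v w, ?_, ⟨hv2, hw2, ?_, ?_⟩, ?_, ?_⟩
      · simp only [sub, hv1, hw1]
      · show lt (sub x w) (sub x v)
        rw [hv1, hw1]
        exact hlt
      · cases v with
        | gen p => trivial
        | com v₁ v₂ =>
          show ¬ lt (sub x w) (sub x v₂)
          rw [hw1]
          rw [← hv1] at hrc
          exact hrc
      · simp only [wt]
        omega
      · rintro (ho | ho)
        · have := hv4 ho
          simp only [wt]
          omega
        · have := hw4 ho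
          simp only [wt]
          omega

end

theorem elim_of_bas (N : ℕ) : ∀ {Z : Type} (lt : Br Z → Br Z → Prop), Ord lt → ∀ c : Br Z,
    wt c ≤ N → bas lt c → Elim c := by
  induction N with
  | zero =>
    intro Z lt _ c hc _
    have := wt_pos c
    omega
  | succ N ih =>
    intro Z lt h c hc hb
    obtain ⟨x, hx, hmin⟩ := exists_min h c
    by_cases hcx : c = gen x
    · rw [hcx]
      exact Elim.gen x
    · obtain ⟨v, hv1, hv2, hv3, hv4⟩ := key h x c hmin hb hcx
      rw [← hv1]
      refine Elim.step x v (ih (fun a b => lt (sub x a) (sub x b)) ?_ v ?_ hv2)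
      · exact
          { irrefl := fun a => h.irrefl _
            trans := fun a b c => h.trans _ _ _
            total := fun a b hab => h.total _ _ fun e => hab (sub_inj x a b e)
            right := fun a b => h.right _ _ }
      · have := hv4 hx
        omega

end Pool.Agent.K6.H89
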