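import Mathlib
import Pool.Agent.H476RA.TaskA
import Pool.Agent.H476RA.TaskC

/-!
# HNN extensions of residually solvable groups along retracts

If `α, β` are endomorphisms of a residually solvable group `B` with `αβα = α` and `βαβ = β`
(so that both ranges are retracts and `β` maps `range α` isomorphically onto `range β`), then the
HNN extension of `B` which conjugates `range α` to `range β` by `β` is residually solvable.
-/

set_option autoImplicit false

namespace Pool.Agent.K6.H89

open HNNExtension

/-- residual solvability: the derived series has trivial intersection -/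
def RS (G : Type) [Group G] : Prop := ∀ g : G, g ≠ 1 → ∃ m, g ∉ derivedSeries G m

theorem RS.of_injective {G H : Type} [Group G] [Group H] (f : G →* H)
    (hf : Function.Injective f) (h : RS H) : RS G := by
  intro g hg
  obtain ⟨m, hm⟩ := h (f g) (fun e => hg (hf (by rw [e, map_one])))
  exact ⟨m, fun hgm => hm (map_derivedSeries_le_derivedSeries (f := f) m ⟨g, hgm, rfl⟩)⟩

section

variable {B : Type} [Group B] (α β : B →* B)

/-- the isomorphism between the ranges -/
def eqv (h1 : ∀ b, α (β (α b)) = α b) (h2 : ∀ b, β (α (β b)) = β b) : α.range ≃* β.range where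
  toFun a := ⟨β a, ⟨a, rfl⟩⟩
  invFun b := ⟨α b, ⟨b, rfl⟩⟩
  left_inv := by
    rintro ⟨_, ⟨b, rfl⟩⟩
    exact Subtype.ext (h1 b)
  right_inv := by
    rintro ⟨_, ⟨b, rfl⟩⟩
    exact Subtype.ext (h2 b)
  map_mul' a b := Subtype.ext (map_mul β _ _)

/-- the HNN extension attached to a pair of generalized inverse endomorphisms -/
abbrev HN (h1 : ∀ b, α (β (α b)) = α b) (h2 : ∀ b, β (α (β b)) = β b) : Type :=
  HNNExtension B α.range β.range (eqv α β h1 h2)

/-- powers of an endomorphism -/
def pw (γ : B →* B) : ℕ → (B →* B)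
  | 0 => MonoidHom.id B
  | n + 1 => (pw γ n).comp γ

/-- the family of endomorphisms indexed by the integers -/
def rho : ℤ → (B →* B)
  | Int.ofNat n => pw α n
  | Int.negSucc n => pw β (n + 1)

theorem rho_zero (b : B) : rho α β 0 b = b := rfl

theorem rho_beta {a : B} (ha : α (β a) = a) (i : ℤ) :
    rho α β i (β a) = rho α β (i - 1) a := by
  rcases i with n | n
  · rcases n with _ | n
    · rfl
    · have e : Int.ofNat (n + 1) - 1 = Int.ofNat n := by
        simp
      rw [e]
      show pw α n (α (β a)) = pw α n a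
      rw [ha]
  · have e : Int.negSucc n - 1 = Int.negSucc (n + 1) := by
      omega
    rw [e]
    rfl

/-- the shift action -/
def shift (B : Type) [Group B] : Multiplicative ℤ →* MulAut (ℤ → B) where
  toFun n :=
    { toFun := fun F i => F (i - n.toAdd)
      invFun := fun F i => F (i + n.toAdd)
      left_inv := by
        intro F
        funext i
        simp
      right_inv := by
        intro F
        funext i
        simp
      map_mul' := by
        intro F G
        rfl }
  map_one' := by
    ext F i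
    simp
  map_mul' m n := by
    ext F i
    simp only [MulEquiv.coe_mk, Equiv.coe_fn_mk, MulAut.mul_apply, toAdd_mul]
    congr 1
    ring

/-- the solvable target -/
abbrev DD (B : Type) [Group B] : Type := (ℤ → B) ⋊[shift B] Multiplicative ℤ

/-- the map to the solvable target -/
noncomputable def ff (h1 : ∀ b, α (β (α b)) = α b) (h2 : ∀ b, β (α (β b)) = β b) :
    HN α β h1 h2 →* DD B :=
  HNNExtension.lift (SemidirectProduct.inl.comp (MonoidHom.pi (rho α β)))
    (SemidirectProduct.inr (Multiplicative.ofAdd 1)) (by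
      rintro ⟨_, ⟨b, rfl⟩⟩
      have h3 := SemidirectProduct.inl_aut (φ := shift B) (Multiplicative.ofAdd 1)
        (MonoidHom.pi (rho α β) (α b))
      have h4 : shift B (Multiplicative.ofAdd 1) (MonoidHom.pi (rho α β) (α b)) =
          MonoidHom.pi (rho α β) (β (α b)) := by
        funext i
        exact (rho_beta α β (h1 b) i).symm
      rw [h4, map_inv, eq_mul_inv_iff_mul_eq] at h3
      exact h3.symm)

theorem ff_inj (h1 : ∀ b, α (β (α b)) = α b) (h2 : ∀ b, β (α (β b)) = β b) :
    Function.Injective ((ff α β h1 h2).comp HNNExtension.of) := by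
  intro a b hab
  have h : ∀ a, (ff α β h1 h2 (of a)).left 0 = a := by
    intro a
    simp only [ff, lift_of, MonoidHom.comp_apply, SemidirectProduct.left_inl]
    exact rho_zero α β a
  rw [← h a, ← h b]
  exact congrArg (fun x : DD B => x.left 0) hab

theorem pi_solv (B : Type) [Group B] (h : Group.IsSolvable B) : Group.IsSolvable (ℤ → B) := by
  obtain ⟨m, hm⟩ := h
  refine ⟨m, ?_⟩
  rw [eq_bot_iff]
  intro F hF
  rw [Subgroup.mem_bot]
  funext i
  have h1 := map_derivedSeries_le_derivedSeries (f := Pi.evalMonoidHom (fun _ : ℤ => B) i) m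
    ⟨F, hF, rfl⟩
  rw [hm] at h1
  exact h1

theorem DD_solv (B : Type) [Group B] (h : Group.IsSolvable B) : Group.IsSolvable (DD B) := by
  have h1 := pi_solv B h
  exact Group.isSolvable_of_ker_le_range (SemidirectProduct.inl : (ℤ → B) →* DD B)
    SemidirectProduct.rightHom (by rw [SemidirectProduct.range_inl_eq_ker_rightHom])

theorem derivedSeries_ker {G D : Type} [Group G] [Group D] (f : G →* D) {d : ℕ}
    (hd : derivedSeries D d = ⊥) (l : ℕ) :
    derivedSeries G (d + l) ≤ (derivedSeries f.ker l).map f.ker.subtype := by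
  induction l with
  | zero =>
    intro g hg
    have h1 := map_derivedSeries_le_derivedSeries (f := f) d ⟨g, hg, rfl⟩
    rw [hd] at h1
    exact ⟨⟨g, h1⟩, trivial, rfl⟩
  | succ l ih =>
    rw [← add_assoc, derivedSeries_succ, derivedSeries_succ, Subgroup.map_commutator]
    exact Subgroup.commutator_mono ih ih

theorem hnn_rs_solv (h1 : ∀ b, α (β (α b)) = α b) (h2 : ∀ b, β (α (β b)) = β b)
    (h : Group.IsSolvable B) : RS (HN α β h1 h2) := by
  intro g hg
  obtain ⟨d, hd⟩ := DD_solv B h
  by_cases hf : g ∈ (ff α β h1 h2).ker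
  · obtain ⟨Y, θ, hθ⟩ := Pool.Agent.H476RA.hnn_ker B _ _ _ _ (ff α β h1 h2)
      (ff_inj α β h1 h2) g hg hf
    obtain ⟨l, hl⟩ := Pool.Agent.H476RA.free_resid Y _ hθ
    refine ⟨d + l, fun hmem => hl ?_⟩
    obtain ⟨k, hk, hkg⟩ := derivedSeries_ker (ff α β h1 h2) hd l hmem
    have e : k = ⟨g, hf⟩ := Subtype.ext hkg
    rw [← e]
    exact map_derivedSeries_le_derivedSeries (f := θ) l ⟨k, hk, rfl⟩
  · refine ⟨d, fun hmem => hf ?_⟩
    have h3 := map_derivedSeries_le_derivedSeries (f := ff α β h1 h2) d ⟨g, hmem, rfl⟩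
    rw [hd] at h3
    exact h3

/-- an endomorphism of the solvable quotient -/
def qe (γ : B →* B) (m : ℕ) : B ⧸ derivedSeries B m →* B ⧸ derivedSeries B m :=
  QuotientGroup.map _ _ γ (by
    rw [← Subgroup.map_le_iff_le_comap]
    exact map_derivedSeries_le_derivedSeries γ m)

theorem qe_mk (γ : B →* B) (m : ℕ) (b : B) :
    qe γ m (QuotientGroup.mk b) = QuotientGroup.mk (γ b) := rfl

theorem qe_three {α β γ : B →* B} (h : ∀ b, α (β (γ b)) = γ b) (m : ℕ) :
    ∀ b, qe α m (qe β m (qe γ m b)) = qe γ m b := by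
  intro b
  obtain ⟨b, rfl⟩ := QuotientGroup.mk_surjective b
  rw [qe_mk, qe_mk, qe_mk, h]

theorem solv_quot (m : ℕ) : Group.IsSolvable (B ⧸ derivedSeries B m) := by
  refine ⟨m, ?_⟩
  rw [← map_derivedSeries_eq (QuotientGroup.mk'_surjective (derivedSeries B m)),
    Subgroup.map_eq_bot_iff, QuotientGroup.ker_mk']

theorem sep_range (hB : RS B) {α β : B →* B} (h1 : ∀ b, α (β (α b)) = α b) (b : B)
    (hb : b ∉ α.range) : ∃ m, ∀ m', m ≤ m' → (QuotientGroup.mk b : B ⧸ derivedSeries B m') ∉
      (qe α m').range := by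
  obtain ⟨m, hm⟩ := hB (b⁻¹ * α (β b)) (by
    intro h
    apply hb
    rw [inv_mul_eq_one] at h
    exact ⟨β b, h.symm⟩)
  refine ⟨m, ?_⟩
  rintro m' hm' ⟨c, hc⟩
  apply hm
  apply derivedSeries_antitone B hm'
  rw [← QuotientGroup.eq]
  rw [← qe_mk, ← qe_mk, ← hc, qe_three h1]

/-- the map of HNN extensions -/
noncomputable def hm (h1 : ∀ b, α (β (α b)) = α b) (h2 : ∀ b, β (α (β b)) = β b) (m : ℕ) :
    HN α β h1 h2 →* HN (qe α m) (qe β m) (qe_three h1 m) (qe_three h2 m) :=
  HNNExtension.lift (HNNExtension.of.comp (QuotientGroup.mk' _)) t (by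
    rintro ⟨_, ⟨b, rfl⟩⟩
    exact t_mul_of (φ := eqv (qe α m) (qe β m) (qe_three h1 m) (qe_three h2 m))
      ⟨QuotientGroup.mk (α b), ⟨QuotientGroup.mk b, rfl⟩⟩)

theorem hm_of (h1 : ∀ b, α (β (α b)) = α b) (h2 : ∀ b, β (α (β b)) = β b) (m : ℕ) (b : B) :
    hm α β h1 h2 m (of b) = of (QuotientGroup.mk b) := by
  simp [hm]

theorem hm_t (h1 : ∀ b, α (β (α b)) = α b) (h2 : ∀ b, β (α (β b)) = β b) (m : ℕ) :
    hm α β h1 h2 m t = t := by
  simp [hm]

/-- **HNN extensions of residually solvable groups along retracts are residually solvable.** -/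
theorem hnn_rs (h1 : ∀ b, α (β (α b)) = α b) (h2 : ∀ b, β (α (β b)) = β b) (hB : RS B) :
    RS (HN α β h1 h2) := by
  classical
  intro g hg
  suffices h : ∃ m, hm α β h1 h2 m g ≠ 1 by
    obtain ⟨m, hm1⟩ := h
    obtain ⟨l, hl⟩ := hnn_rs_solv (qe α m) (qe β m) (qe_three h1 m) (qe_three h2 m)
      (solv_quot m) _ hm1
    exact ⟨l, fun hgl => hl (map_derivedSeries_le_derivedSeries (hm α β h1 h2 m) l ⟨g, hgl, rfl⟩)⟩
  obtain ⟨d⟩ := NormalWord.TransversalPair.nonempty B α.range β.range
  obtain ⟨w, hw⟩ := (NormalWord.equiv (eqv α β h1 h2) d).symm.surjective g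
  have hw' : w.prod (eqv α β h1 h2) = g := hw
  have hp : g = of w.head * (w.toList.map (fun x => t ^ (x.1 : ℤ) * of x.2)).prod := hw'.symm
  have key : ∀ L : List (ℤˣ × B), ∃ m, ∀ m', m ≤ m' → ∀ x ∈ L,
      (QuotientGroup.mk x.2 : B ⧸ derivedSeries B m') ∈
        toSubgroup (qe α m').range (qe β m').range x.1 →
      x.2 ∈ toSubgroup α.range β.range x.1 := by
    intro L
    induction L with
    | nil => exact ⟨0, fun _ _ x hx => by simp at hx⟩
    | cons y L ih =>
      obtain ⟨m, hm⟩ := ih
      obtain ⟨k, hk⟩ : ∃ k, ∀ m', k ≤ m' →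
          (QuotientGroup.mk y.2 : B ⧸ derivedSeries B m') ∈
            toSubgroup (qe α m').range (qe β m').range y.1 →
          y.2 ∈ toSubgroup α.range β.range y.1 := by
        by_cases hy : y.2 ∈ toSubgroup α.range β.range y.1
        · exact ⟨0, fun _ _ _ => hy⟩
        · obtain ⟨u, b⟩ := y
          rcases Int.units_eq_one_or u with rfl | rfl
          · obtain ⟨k, hk⟩ := sep_range hB h1 b hy
            exact ⟨k, fun m' hm' h => absurd h (hk m' hm')⟩
          · obtain ⟨k, hk⟩ := sep_range hB h2 b hy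
            exact ⟨k, fun m' hm' h => absurd h (hk m' hm')⟩
      refine ⟨max m k, fun m' hm' x hx => ?_⟩
      rcases List.mem_cons.mp hx with rfl | hx
      · exact hk m' (le_trans (le_max_right _ _) hm')
      · exact hm m' (le_trans (le_max_left _ _) hm') x hx
  cases hl : w.toList with
  | nil =>
    rw [hl, List.map_nil, List.prod_nil, mul_one] at hp
    obtain ⟨m, hm1⟩ := hB w.head (by
      intro h
      apply hg
      rw [hp, h, map_one])
    refine ⟨m, ?_⟩
    rw [hp, hm_of]
    intro h
    apply hm1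
    have h3 := of_injective _ (h.trans (map_one of).symm)
    rwa [QuotientGroup.eq_one_iff] at h3
  | cons x l =>
    obtain ⟨m, hm1⟩ := key w.toList
    refine ⟨m, fun h => ?_⟩
    let w' : NormalWord.ReducedWord (B ⧸ derivedSeries B m) (qe α m).range (qe β m).range :=
      { head := QuotientGroup.mk w.head
        toList := w.toList.map (fun x => (x.1, QuotientGroup.mk x.2))
        chain := by
          rw [List.isChain_map]
          refine List.IsChain.imp_of_mem_imp ?_ w.chain
          intro a b ha _ hab hmem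
          exact hab (hm1 m le_rfl a ha hmem) }
    have h3 := ReducedWord.toList_eq_nil_of_mem_of_range
      (eqv (qe α m) (qe β m) (qe_three h1 m) (qe_three h2 m)) w' ⟨1, by
        rw [map_one, ← h, hp]
        simp only [NormalWord.ReducedWord.prod, w', map_mul, hm_of, map_list_prod, List.map_map]
        congr 3
        funext x
        simp [hm_t, hm_of]⟩
    simp [w', hl] at h3

end

end Pool.Agent.K6.H89
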