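import Pool.Agent.K6.H89.RS.Hnn

/-!
# Elimination for groups with a single commutator relator
-/

set_option autoImplicit false

namespace Pool.Agent.K6.H89

open HNNExtension

/-- Formal (bracketed) commutator expressions in the letters `Z`. -/
inductive Br (Z : Type) : Type
  | gen : Z → Br Z
  | com : Br Z → Br Z → Br Z

namespace Br

/-- The value of a commutator expression in a group, with `[a, b] = a⁻¹ b⁻¹ a b`. -/
def ev {Z G : Type} [Group G] (f : Z → G) : Br Z → G
  | gen z => f z
  | com a b => (ev f a)⁻¹ * (ev f b)⁻¹ * ev f a * ev f b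

/-- the letter `z` occurs -/
def occ {Z : Type} (z : Z) : Br Z → Prop
  | gen w => w = z
  | com a b => occ z a ∨ occ z b

variable {Z G H : Type} [Group G] [Group H]

theorem map_ev (φ : G →* H) (f : Z → G) (c : Br Z) : φ (ev f c) = ev (fun z => φ (f z)) c := by
  induction c with
  | gen z => rfl
  | com a b iha ihb => simp only [ev, map_mul, map_inv, iha, ihb]

theorem ev_congr {f g : Z → G} {c : Br Z} (h : ∀ z, occ z c → f z = g z) : ev f c = ev g c := by
  induction c with
  | gen z => exact h z rfl
  | com a b iha ihb =>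
    simp only [ev]
    rw [iha fun z hz => h z (Or.inl hz), ihb fun z hz => h z (Or.inr hz)]

theorem ev_kill {f : Z → G} {c : Br Z} {z : Z} (hz : occ z c) (h : f z = 1) : ev f c = 1 := by
  induction c with
  | gen w =>
    have : w = z := hz
    rw [this]
    exact h
  | com a b iha ihb =>
    rcases hz with hz | hz
    · simp only [ev, iha hz]
      group
    · simp only [ev, ihb hz]
      group

/-- the iterated commutator `[w, x, …, x]` -/
def yy (x : Z) (w : Z) : ℕ → Br Z
  | 0 => gen w
  | k + 1 => com (yy x w k) (gen x)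

/-- substitution of the iterated commutators -/
def sub (x : Z) : Br ({z : Z // z ≠ x} × ℕ) → Br Z
  | gen p => yy x p.1 p.2
  | com a b => com (sub x a) (sub x b)

theorem ev_sub (x : Z) (f : Z → G) (c : Br ({z : Z // z ≠ x} × ℕ)) :
    ev f (sub x c) = ev (fun p => ev f (yy x p.1 p.2)) c := by
  induction c with
  | gen p => rfl
  | com a b iha ihb => simp only [sub, ev, iha, ihb]

theorem exists_max {W : Type} (c : Br (W × ℕ)) :
    ∃ m, (∀ p, occ p c → p.2 ≤ m) ∧ ∃ w, occ (w, m) c := by
  induction c with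
  | gen p =>
    refine ⟨p.2, ?_, p.1, rfl⟩
    intro q hq
    have : p = q := hq
    rw [this]
  | com a b iha ihb =>
    obtain ⟨m, hm, w, hw⟩ := iha
    obtain ⟨n, hn, v, hv⟩ := ihb
    rcases le_total m n with h | h
    · refine ⟨n, ?_, v, Or.inr hv⟩
      rintro p (hp | hp)
      · exact (hm p hp).trans h
      · exact hn p hp
    · refine ⟨m, ?_, w, Or.inl hw⟩
      rintro p (hp | hp)
      · exact hm p hp
      · exact (hn p hp).trans h

end Br

open Br

/-- the group with a single defining relator given by a commutator expression -/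
abbrev GG {Z : Type} (c : Br Z) : Type := PresentedGroup ({ev FreeGroup.of c} : Set (FreeGroup Z))

theorem lift_ev {Z G : Type} [Group G] (f : Z → G) (c : Br Z) :
    FreeGroup.lift f (ev FreeGroup.of c) = ev f c := by
  rw [map_ev]
  congr 1
  funext z
  exact FreeGroup.lift_apply_of

/-- the homomorphism from a one-relator group -/
def lft {Z G : Type} [Group G] (c : Br Z) (f : Z → G) (h : ev f c = 1) : GG c →* G :=
  PresentedGroup.toGroup (f := f) (by
    rintro r hr
    rw [Set.mem_singleton_iff.mp hr, lift_ev, h])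

theorem lft_of {Z G : Type} [Group G] (c : Br Z) (f : Z → G) (h : ev f c = 1) (z : Z) :
    lft c f h (PresentedGroup.of z) = f z := PresentedGroup.toGroup.of _

theorem GG_rel {Z : Type} (c : Br Z) : ev (fun z => (PresentedGroup.of z : GG c)) c = 1 := by
  have h : (PresentedGroup.mk ({ev FreeGroup.of c} : Set (FreeGroup Z))) (ev FreeGroup.of c) = 1 :=
    PresentedGroup.one_of_mem (Set.mem_singleton _)
  rw [map_ev] at h
  exact h

section Step

variable {W : Type} (c : Br (W × ℕ)) (m : ℕ)

/-- the relators of the base group -/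
def rels : Set (FreeGroup (W × ℕ)) := {r | r = ev FreeGroup.of c ∨ ∃ p : W × ℕ, m < p.2 ∧
  r = FreeGroup.of p}

/-- the base group -/
abbrev BB : Type := PresentedGroup (rels c m)

/-- the generators of the base group -/
def y (p : W × ℕ) : BB c m := PresentedGroup.of p

theorem y_one {p : W × ℕ} (h : m < p.2) : y c m p = 1 :=
  PresentedGroup.one_of_mem (rels := rels c m) (Or.inr ⟨p, h, rfl⟩)

theorem y_rel : ev (y c m) c = 1 := by
  have h : (PresentedGroup.mk (rels c m)) (ev FreeGroup.of c) = 1 :=
    PresentedGroup.one_of_mem (rels := rels c m) (Or.inl rfl)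
  rw [map_ev] at h
  exact h

/-- the homomorphism from the base group -/
def blft {G : Type} [Group G] (f : W × ℕ → G) (h1 : ev f c = 1) (h2 : ∀ p, m < p.2 → f p = 1) :
    BB c m →* G :=
  PresentedGroup.toGroup (f := f) (by
    rintro r (rfl | ⟨p, hp, rfl⟩)
    · rw [lift_ev, h1]
    · rw [FreeGroup.lift_apply_of, h2 p hp])

theorem blft_y {G : Type} [Group G] (f : W × ℕ → G) (h1 : ev f c = 1)
    (h2 : ∀ p, m < p.2 → f p = 1) (p : W × ℕ) : blft c m f h1 h2 (y c m p) = f p :=
  PresentedGroup.toGroup.of _

theorem BB_ext {G : Type} [Group G] {f g : BB c m →* G} (h : ∀ p, f (y c m p) = g (y c m p)) :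
    f = g := PresentedGroup.ext h

/-- the images of the generators under the left inverse, by descending index -/
def aw (w : W) : ℕ → BB c m
  | 0 => 1
  | j + 1 => y c m (w, m - (j + 1)) * (aw w j)⁻¹

variable {c m}

/-- the endomorphism `α` -/
def al (hm : ∃ w, occ (w, m) c) : BB c m →* BB c m :=
  blft c m (fun p => aw c m p.1 (m - p.2)) (by
    obtain ⟨w, hw⟩ := hm
    refine ev_kill hw ?_
    show aw c m w (m - m) = 1
    rw [Nat.sub_self]
    rfl) (by
    intro p hp
    show aw c m p.1 (m - p.2) = 1
    rw [Nat.sub_eq_zero_of_le hp.le]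
    rfl)

theorem al_y (hm : ∃ w, occ (w, m) c) (p : W × ℕ) :
    al hm (y c m p) = aw c m p.1 (m - p.2) := blft_y _ _ _ _ _ _

/-- the endomorphism `β` -/
def be (hm : ∃ w, occ (w, m) c) : BB c m →* BB c m :=
  blft c m (fun p => if p.2 < m then y c m p * y c m (p.1, p.2 + 1) else 1) (by
    obtain ⟨w, hw⟩ := hm
    refine ev_kill hw ?_
    simp) (by
    intro p hp
    rw [if_neg (by omega)])

theorem be_y (hm : ∃ w, occ (w, m) c) (p : W × ℕ) :
    be hm (y c m p) = if p.2 < m then y c m p * y c m (p.1, p.2 + 1) else 1 := blft_y _ _ _ _ _ _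

theorem al_be_y (hm : ∃ w, occ (w, m) c) (p : W × ℕ) (hp : p.2 < m) :
    al hm (be hm (y c m p)) = y c m p := by
  rw [be_y, if_pos hp, map_mul, al_y, al_y]
  obtain ⟨w, k⟩ := p
  simp only at hp ⊢
  have e : m - k = (m - (k + 1)) + 1 := by omega
  rw [e]
  show y c m (w, m - (m - (k + 1) + 1)) * (aw c m w (m - (k + 1)))⁻¹ * aw c m w (m - (k + 1)) = _
  rw [inv_mul_cancel_right]
  congr 2
  omega

theorem al_be_aw (hm : ∃ w, occ (w, m) c) (w : W) (j : ℕ) (hj : j ≤ m) :
    al hm (be hm (aw c m w j)) = aw c m w j := by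
  induction j with
  | zero => simp [aw]
  | succ j ih =>
    simp only [aw]
    rw [map_mul, map_mul, al_be_y hm _ (by simp only; omega), map_inv, map_inv,
      ih (by omega)]

theorem al_be_al (hm : ∃ w, occ (w, m) c) (b : BB c m) : al hm (be hm (al hm b)) = al hm b := by
  have h : (al hm).comp ((be hm).comp (al hm)) = al hm := by
    apply BB_ext
    intro p
    simp only [MonoidHom.comp_apply]
    rw [al_y]
    exact al_be_aw hm _ _ (Nat.sub_le _ _)
  exact DFunLike.congr_fun h b

theorem be_al_be (hm : ∃ w, occ (w, m) c) (b : BB c m) : be hm (al hm (be hm b)) = be hm b := by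
  have h : (be hm).comp ((al hm).comp (be hm)) = be hm := by
    apply BB_ext
    intro p
    simp only [MonoidHom.comp_apply]
    by_cases hp : p.2 < m
    · rw [al_be_y hm p hp]
    · rw [be_y, if_neg hp, map_one, map_one]
  exact DFunLike.congr_fun h b

/-- the HNN extension -/
abbrev HH (hm : ∃ w, occ (w, m) c) : Type := HN (al hm) (be hm) (al_be_al hm) (be_al_be hm)

theorem HH_t (hm : ∃ w, occ (w, m) c) (p : W × ℕ) (hp : p.2 < m) :
    (t : HH hm) * of (y c m p) * t⁻¹ = of (y c m p) * of (y c m (p.1, p.2 + 1)) := by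
  have h := t_mul_of (φ := eqv (al hm) (be hm) (al_be_al hm) (be_al_be hm))
    ⟨y c m p, ⟨be hm (y c m p), al_be_y hm p hp⟩⟩
  have h2 : ((eqv (al hm) (be hm) (al_be_al hm) (be_al_be hm))
      ⟨y c m p, ⟨be hm (y c m p), al_be_y hm p hp⟩⟩ : BB c m) =
      y c m p * y c m (p.1, p.2 + 1) := by
    show be hm (y c m p) = _
    rw [be_y, if_pos hp]
  rw [h2, map_mul] at h
  rw [mul_inv_eq_iff_eq_mul]
  exact h

/-- the base group is a retract -/
theorem BB_rs (hle : ∀ p, occ p c → p.2 ≤ m) (h : RS (GG c)) : RS (BB c m) := by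
  classical
  let s : BB c m →* GG c := blft c m (fun p => if p.2 ≤ m then PresentedGroup.of p else 1) (by
    rw [← GG_rel c]
    exact ev_congr fun p hp => if_pos (hle p hp)) (by
    intro p hp
    rw [if_neg (by omega)])
  let q : GG c →* BB c m := lft c (y c m) (y_rel c m)
  refine RS.of_injective s ?_ h
  have hqs : q.comp s = MonoidHom.id _ := by
    apply BB_ext
    intro p
    simp only [MonoidHom.comp_apply, MonoidHom.id_apply]
    by_cases hp : p.2 ≤ m
    · have h1 : s (y c m p) = PresentedGroup.of p := (blft_y _ _ _ _ _ _).trans (if_pos hp)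
      rw [h1]
      exact lft_of _ _ _ _
    · have h1 : s (y c m p) = 1 := (blft_y _ _ _ _ _ _).trans (if_neg hp)
      rw [h1, map_one, y_one c m (by omega)]
  exact Function.LeftInverse.injective (g := q) (DFunLike.congr_fun hqs)

end Step

theorem step_rs {Z : Type} (x : Z) (c : Br ({z : Z // z ≠ x} × ℕ)) (h : RS (GG c)) :
    RS (GG (sub x c)) := by
  classical
  obtain ⟨m, hle, hm⟩ := exists_max c
  have hB := BB_rs hle h
  have hH : RS (HH hm) := hnn_rs _ _ _ _ hB
  -- the map to the HNN extension
  let f : Z → HH hm := fun z => if hz : z = x then t⁻¹ else of (y c m (⟨z, hz⟩, 0))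
  have hfx : f x = t⁻¹ := dif_pos rfl
  have hf0 : ∀ w : {z : Z // z ≠ x}, f w = of (y c m (w, 0)) := fun w => dif_neg w.2
  have hfy : ∀ (w : {z : Z // z ≠ x}) (k : ℕ), k ≤ m → ev f (yy x w k) = of (y c m (w, k)) := by
    intro w k
    induction k with
    | zero => intro _; exact hf0 w
    | succ k ih =>
      intro hk
      simp only [yy, ev]
      rw [ih (by omega), hfx, inv_inv, mul_assoc, mul_assoc, ← mul_assoc t,
        HH_t hm (w, k) (by simp only; omega), inv_mul_cancel_left]
  let F : GG (sub x c) →* HH hm := lft (sub x c) f (by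
    rw [ev_sub, ev_congr (g := fun p => of (y c m p)) (fun p hp => hfy p.1 p.2 (hle p hp)),
      ← map_ev, y_rel, map_one])
  -- the left inverse
  let X : Z → GG (sub x c) := fun z => PresentedGroup.of z
  have hX : ev X (sub x c) = 1 := GG_rel (sub x c)
  let P0 : BB c m →* GG (sub x c) :=
    blft c m (fun p => if p.2 ≤ m then ev X (yy x p.1 p.2) else 1) (by
      have h5 := hX
      rw [ev_sub] at h5
      refine Eq.trans ?_ h5
      exact ev_congr fun p hp => if_pos (hle p hp)) (by
      intro p hp
      rw [if_neg (by omega)])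
  have hP0 : ∀ p : {z : Z // z ≠ x} × ℕ, p.2 ≤ m → P0 (y c m p) = ev X (yy x p.1 p.2) :=
    fun p hp => (blft_y _ _ _ _ _ _).trans (if_pos hp)
  have hc1 : ∀ p : {z : Z // z ≠ x} × ℕ, p.2 < m →
      (X x)⁻¹ * P0 (y c m p) * X x = P0 (be hm (y c m p)) := by
    intro p hp
    rw [be_y, if_pos hp, map_mul, hP0 p hp.le, hP0 (p.1, p.2 + 1) hp]
    simp only [yy, ev]
    group
  have hc2 : ∀ (w : {z : Z // z ≠ x}) (j : ℕ), j ≤ m →
      (X x)⁻¹ * P0 (aw c m w j) * X x = P0 (be hm (aw c m w j)) := by
    intro w j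
    induction j with
    | zero => intro _; simp [aw]
    | succ j ih =>
      intro hj
      simp only [aw]
      rw [map_mul (be hm), map_mul P0 (be hm _), ← hc1 _ (by simp only; omega), map_inv (be hm),
        map_inv P0, ← ih (by omega), map_mul P0, map_inv P0]
      group
  have hc3 : ∀ b : BB c m, (X x)⁻¹ * P0 (al hm b) * X x = P0 (be hm (al hm b)) := by
    intro b
    have h1 : ((MulAut.conj (X x)⁻¹).toMonoidHom.comp (P0.comp (al hm))) =
        P0.comp ((be hm).comp (al hm)) := by
      apply BB_ext
      intro p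
      simp only [MonoidHom.comp_apply, MulEquiv.coe_toMonoidHom, MulAut.conj_apply, inv_inv]
      rw [al_y]
      exact hc2 _ _ (Nat.sub_le _ _)
    have h2 := DFunLike.congr_fun h1 b
    simpa only [MonoidHom.comp_apply, MulEquiv.coe_toMonoidHom, MulAut.conj_apply, inv_inv]
      using h2
  let P : HH hm →* GG (sub x c) := HNNExtension.lift P0 (X x)⁻¹ (by
    rintro ⟨_, ⟨b, rfl⟩⟩
    show (X x)⁻¹ * P0 (al hm b) = P0 (be hm (al hm b)) * (X x)⁻¹
    rw [← hc3 b, mul_inv_cancel_right])
  refine RS.of_injective F ?_ hH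
  have hPF : P.comp F = MonoidHom.id _ := by
    apply PresentedGroup.ext
    intro z
    have h1 : F (PresentedGroup.of z) = f z := lft_of _ _ _ _
    show P (F (PresentedGroup.of z)) = PresentedGroup.of z
    rw [h1]
    by_cases hz : z = x
    · rw [hz, hfx, map_inv]
      show (P t)⁻¹ = X x
      rw [HNNExtension.lift_t, inv_inv]
    · have h2 := hf0 ⟨z, hz⟩
      simp only at h2
      rw [h2]
      show P (of _) = X z
      rw [HNNExtension.lift_of, hP0 (⟨z, hz⟩, 0) (Nat.zero_le _)]
      rfl
  exact Function.LeftInverse.injective (g := P) (DFunLike.congr_fun hPF)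

/-- expressions which can be reduced to a letter by repeated elimination -/
inductive Elim : {Z : Type} → Br Z → Prop
  | gen {Z : Type} (z : Z) : Elim (Br.gen z)
  | step {Z : Type} (x : Z) (c : Br ({z : Z // z ≠ x} × ℕ)) : Elim c → Elim (sub x c)

theorem gen_rs {Z : Type} (z : Z) : RS (GG (Br.gen z)) := by
  classical
  have hF : RS (FreeGroup Z) := fun g hg => Pool.Agent.H476RA.free_resid Z g hg
  let s : GG (Br.gen z) →* FreeGroup Z := lft _ (fun w => if w = z then 1 else FreeGroup.of w) (by
    show (if z = z then 1 else FreeGroup.of z) = 1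
    rw [if_pos rfl])
  let q : FreeGroup Z →* GG (Br.gen z) := FreeGroup.lift fun w => PresentedGroup.of w
  refine RS.of_injective s ?_ hF
  have hqs : q.comp s = MonoidHom.id _ := by
    apply PresentedGroup.ext
    intro w
    have h1 : s (PresentedGroup.of w) = if w = z then 1 else FreeGroup.of w := lft_of _ _ _ _
    show q (s (PresentedGroup.of w)) = PresentedGroup.of w
    rw [h1]
    by_cases hw : w = z
    · rw [if_pos hw, map_one, hw]
      exact (GG_rel (Br.gen z)).symm
    · rw [if_neg hw]
      exact FreeGroup.lift_apply_of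
  exact Function.LeftInverse.injective (g := q) (DFunLike.congr_fun hqs)

theorem Elim.rs {Z : Type} {c : Br Z} (h : Elim c) : RS (GG c) := by
  induction h with
  | gen z => exact gen_rs z
  | step x c _ ih => exact step_rs x c ih

end Pool.Agent.K6.H89
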